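import Pool.Agent.Q250.RPChain

/-!
MP_cb5b52_nt, Q1: a sequence of positive integers with gcd 1 and infinitely many prime divisors for
which the odd density of the restricted multi-colour partition function tends to 0, not to 1/2.
-/

set_option autoImplicit false

open Filter Topology

namespace Pool.Agent.Results.MP_cb5b52_nt.LimitZero

/-- `p_𝒜(n, k)`: the number of `k`-tuples `(c_1, …, c_k)` of non-negative integers with
`c_1 a_1 + ⋯ + c_k a_k = n`. The terms `a_1, a_2, a_3, …` of the sequence `𝒜` are written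
`a 0, a 1, a 2, …`. -/
noncomputable def restrictedPartitions (a : ℕ → ℕ) (n k : ℕ) : ℕ :=
  Nat.card {c : Fin k → ℕ // ∑ i : Fin k, c i * a i = n}

/-- The odd density of `p_𝒜(·, k)` exists and is equal to `δ`. -/
def HasOddDensity (a : ℕ → ℕ) (k : ℕ) (δ : ℝ) : Prop :=
  Tendsto (fun N : ℕ => ({n : ℕ | n ≤ N ∧ Odd (restrictedPartitions a n k)}.ncard : ℝ) / N) atTop
    (𝓝 δ)

/-- There is a sequence of positive integers whose greatest common divisor is 1, which has
infinitely many prime divisors (every prime divides some term), and whose odd densities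
`δ_𝒜(k)` are `2 ^ (1 - k)` for all `k ≥ 1`; so they tend to `0` and not to `1/2`. -/
theorem result : ∃ a : ℕ → ℕ, (∀ i, 0 < a i) ∧ (∀ d : ℕ, (∀ i, d ∣ a i) → d = 1) ∧
    {q : ℕ | q.Prime ∧ ∃ i, q ∣ a i}.Infinite ∧
    (∀ k : ℕ, 1 ≤ k → HasOddDensity a k ((1 / 2 : ℝ) ^ (k - 1))) ∧
    (∃ δ : ℕ → ℝ, (∀ k : ℕ, 1 ≤ k → HasOddDensity a k (δ k)) ∧ Tendsto δ atTop (𝓝 0)) ∧
    ¬ ∃ δ : ℕ → ℝ, (∀ k : ℕ, 1 ≤ k → HasOddDensity a k (δ k)) ∧ Tendsto δ atTop (𝓝 (1 / 2)) := by
  set a : ℕ → ℕ := fun i => 2 ^ i * (i + 1).factorial with ha'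
  have ha : ∀ i, 0 < a i := fun i => by positivity
  have h0 : a 0 = 1 := by simp [ha']
  have hd : ∀ i, 2 * a i ∣ a (i + 1) := by
    intro i
    refine ⟨i + 2, ?_⟩
    simp only [ha']
    rw [Nat.factorial_succ (i + 1), pow_succ]
    ring
  have hden : ∀ k : ℕ, 1 ≤ k → HasOddDensity a k ((1 / 2 : ℝ) ^ (k - 1)) := by
    intro k hk
    obtain ⟨k, rfl⟩ : ∃ j, k = j + 1 := ⟨k - 1, by omega⟩
    exact Q250.RP.chain_density a ha h0 hd k
  have hlim : Tendsto (fun k : ℕ => (1 / 2 : ℝ) ^ (k - 1)) atTop (𝓝 0) :=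
    (tendsto_pow_atTop_nhds_zero_of_lt_one (by norm_num) (by norm_num)).comp
      (tendsto_sub_atTop_nat 1)
  refine ⟨a, ha, fun d h => ?_, ?_, hden, ⟨_, hden, hlim⟩, ?_⟩
  · have := h 0
    rw [h0] at this
    exact Nat.dvd_one.1 this
  · refine Nat.infinite_setOf_prime.mono ?_
    intro q hq
    refine ⟨hq, q, ?_⟩
    simp only [ha']
    exact (Nat.dvd_factorial hq.pos (Nat.le_succ q)).mul_left _
  · rintro ⟨δ, h1, h2⟩
    have h3 : Tendsto δ atTop (𝓝 0) := by
      refine hlim.congr' ?_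
      filter_upwards [eventually_ge_atTop 1] with k hk
      exact tendsto_nhds_unique (hden k hk) (h1 k hk)
    have := tendsto_nhds_unique h2 h3
    norm_num at this

end Pool.Agent.Results.MP_cb5b52_nt.LimitZero
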